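import Pool.Agent.Q28.Ech3

/-!
There are an echelon subgroup `H` of the free group of rank two and a finitely generated subgroup
`G` such that `H ∩ G` is not an echelon subgroup of `G`.
-/

namespace Pool.Agent.Results.MP_3ccc78_al.IntersectionNotEchelonInG

open Q28.Ech FreeGroup

/-- generators of the subgroup `G` -/
def gG : Fin 4 → F2 := ![x * x * x, y, x * y * x⁻¹, x * x * y * x⁻¹ * x⁻¹]

/-- generators of the subgroup `H` -/
def gH : Fin 2 → F2 := ![x, y * x * y * x⁻¹ * y⁻¹ * y⁻¹ * x * y⁻¹ * x⁻¹ * y]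

/-- elements of the intersection -/
def gK : Fin 4 → F2 := ![gH 0 * gH 0 * gH 0, gH 1, gH 0 * gH 1 * (gH 0)⁻¹,
  gH 0 * gH 0 * gH 1 * (gH 0)⁻¹ * (gH 0)⁻¹]

/-- the subgroup `G` -/
def G : Subgroup F2 := (FreeGroup.lift gG).range

/-- the subgroup `H` -/
def H : Subgroup F2 := (FreeGroup.lift gH).range

theorem gG_mem (j : Fin 4) : gG j ∈ G := ⟨FreeGroup.of j, FreeGroup.lift_apply_of⟩

theorem gH_mem (j : Fin 2) : gH j ∈ H := ⟨FreeGroup.of j, FreeGroup.lift_apply_of⟩

theorem gK_mem_H (j : Fin 4) : gK j ∈ H := by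
  have h0 := gH_mem 0
  have h1 := gH_mem 1
  have h0' := H.inv_mem h0
  fin_cases j
  · exact H.mul_mem (H.mul_mem h0 h0) h0
  · exact h1
  · exact H.mul_mem (H.mul_mem h0 h1) h0'
  · exact H.mul_mem (H.mul_mem (H.mul_mem (H.mul_mem h0 h0) h1) h0') h0'

theorem wform (p q : F2) (hp : p ∈ G) (hq : q ∈ G) :
    p * q * p⁻¹ * p⁻¹ * q⁻¹ * p ∈ G :=
  G.mul_mem (G.mul_mem (G.mul_mem (G.mul_mem (G.mul_mem hp hq) (G.inv_mem hp)) (G.inv_mem hp))
    (G.inv_mem hq)) hp

theorem gK_mem_G (j : Fin 4) : gK j ∈ G := by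
  have h0 := gG_mem 0
  have h1 := gG_mem 1
  have h2 := gG_mem 2
  have h3 := gG_mem 3
  fin_cases j
  · exact h0
  · have h4 := wform _ _ h1 h2
    have h5 : gK 1 = gG 1 * gG 2 * (gG 1)⁻¹ * (gG 1)⁻¹ * (gG 2)⁻¹ * gG 1 := by
      change y * x * y * x⁻¹ * y⁻¹ * y⁻¹ * x * y⁻¹ * x⁻¹ * y =
        y * (x * y * x⁻¹) * y⁻¹ * y⁻¹ * (x * y * x⁻¹)⁻¹ * y
      group
    change gK 1 ∈ G
    rw [h5]
    exact h4
  · have h4 := wform _ _ h2 h3
    have h5 : gK 2 = gG 2 * gG 3 * (gG 2)⁻¹ * (gG 2)⁻¹ * (gG 3)⁻¹ * gG 2 := by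
      change x * (y * x * y * x⁻¹ * y⁻¹ * y⁻¹ * x * y⁻¹ * x⁻¹ * y) * x⁻¹ =
        (x * y * x⁻¹) * (x * x * y * x⁻¹ * x⁻¹) * (x * y * x⁻¹)⁻¹ * (x * y * x⁻¹)⁻¹ *
          (x * x * y * x⁻¹ * x⁻¹)⁻¹ * (x * y * x⁻¹)
      group
    change gK 2 ∈ G
    rw [h5]
    exact h4
  · have h4 := wform _ _ h3 (G.mul_mem (G.mul_mem h0 h1) (G.inv_mem h0))
    have h5 : gK 3 = gG 3 * (gG 0 * gG 1 * (gG 0)⁻¹) * (gG 3)⁻¹ * (gG 3)⁻¹ *
        (gG 0 * gG 1 * (gG 0)⁻¹)⁻¹ * gG 3 := by
      change x * x * (y * x * y * x⁻¹ * y⁻¹ * y⁻¹ * x * y⁻¹ * x⁻¹ * y) * x⁻¹ * x⁻¹ =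
        (x * x * y * x⁻¹ * x⁻¹) * (x * x * x * y * (x * x * x)⁻¹) * (x * x * y * x⁻¹ * x⁻¹)⁻¹ *
          (x * x * y * x⁻¹ * x⁻¹)⁻¹ *
          (x * x * x * y * (x * x * x)⁻¹)⁻¹ * (x * x * y * x⁻¹ * x⁻¹)
      group
    change gK 3 ∈ G
    rw [h5]
    exact h4

/-! ### `H` is echelon -/

/-- blocks of `H` -/
def BH (p : Fin 2 × Bool) : List (Fin 2 × Bool) :=
  match p with
  | (0, b) => [(0, b)]
  | (1, true) => [(1, true), (0, true), (1, true), (0, false), (1, false), (1, false), (0, true),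
      (1, false), (0, false), (1, true)]
  | (1, false) => [(1, false), (0, true), (1, true), (0, false), (1, true), (1, true), (0, true),
      (1, false), (0, false), (1, false)]

theorem injH : Function.Injective (FreeGroup.lift gH) := by
  have h : gH = fun i => FreeGroup.mk (BH (i, true)) := by
    funext i
    fin_cases i <;> rfl
  rw [h]
  refine blocks_injective BH (by decide) ?_ (by decide) (by decide)
  intro p
  rw [isReduced_iff_reduce_eq]
  revert p
  decide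

theorem rho_pow_x (k : ℤ) (i : ZMod 3) : (rho (x ^ k)).s i = 0 := by
  let S : Subgroup QQ :=
    { carrier := {q | q.u = 0 ∧ q.s = 0}
      one_mem' := ⟨rfl, rfl⟩
      mul_mem' := by
        rintro a b ⟨ha, ha'⟩ ⟨hb, hb'⟩
        refine ⟨?_, ?_⟩
        · funext i
          rw [QQ.mul_u, ha, hb]; rfl
        · funext i
          rw [QQ.mul_s, ha, hb, ha', hb']; simp
      inv_mem' := by
        rintro a ⟨ha, ha'⟩
        refine ⟨?_, ?_⟩
        · funext i
          rw [QQ.inv_u, ha]; rfl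
        · funext i
          rw [QQ.inv_s, ha, ha']; simp }
  have h1 : rho x ∈ S := ⟨rfl, rfl⟩
  have h2 : rho (x ^ k) ∈ S := by
    rw [MonoidHom.map_zpow]
    exact S.zpow_mem h1 k
  exact congrFun h2.2 i

theorem echelonH : IsEchelon H := by
  refine echelon_of (X := FreeGroupBasis.ofFreeGroup (Fin 2)) gH injH ?_ ?_
  · rw [FreeGroupBasis.ofFreeGroup_apply]; rfl
  · rw [FreeGroupBasis.ofFreeGroup_apply]
    rintro ⟨k, hk⟩
    have h1 : (rho (x ^ k)).s 0 = (rho (gH 1)).s 0 := congrArg (fun g => (rho g).s 0) hk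
    rw [rho_pow_x] at h1
    exact absurd h1 (by decide)

/-! ### the homomorphisms -/

abbrev V : Type := Fin 4 → ℚ

theorem rho_G (g : F2) (hg : g ∈ G) : ((rho g).n : ZMod 3) = 0 := by
  let S : Subgroup QQ :=
    { carrier := {q | (q.n : ZMod 3) = 0}
      one_mem' := by
        change ((1 : QQ).n : ZMod 3) = 0
        rw [QQ.one_n]; simp
      mul_mem' := by
        intro a b ha hb
        change (((a * b).n : ℤ) : ZMod 3) = 0
        have ha' : (a.n : ZMod 3) = 0 := ha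
        have hb' : (b.n : ZMod 3) = 0 := hb
        rw [QQ.mul_n, Int.cast_add, ha', hb', add_zero]
      inv_mem' := by
        intro a ha
        change ((a⁻¹.n : ℤ) : ZMod 3) = 0
        have ha' : (a.n : ZMod 3) = 0 := ha
        rw [QQ.inv_n, Int.cast_neg, ha', neg_zero] }
  have h : G ≤ S.comap rho := by
    apply range_le
    intro i
    change ((rho (gG i)).n : ZMod 3) = 0
    revert i
    decide
  exact h hg

theorem rho_H (g : F2) (hg : g ∈ H) (i : ZMod 3) : (rho g).u i = 0 := by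
  let S : Subgroup QQ :=
    { carrier := {q | ∀ i, q.u i = 0}
      one_mem' := fun _ => rfl
      mul_mem' := by
        intro a b ha hb i
        rw [QQ.mul_u, ha, hb, add_zero]
      inv_mem' := by
        intro a ha i
        rw [QQ.inv_u, ha, neg_zero] }
  have h : H ≤ S.comap rho := by
    apply range_le
    intro j
    change ∀ i, (rho (gH j)).u i = 0
    revert j
    decide
  exact h hg i

/-- the abelianisation of `G` -/
def fG : G →* Multiplicative V where
  toFun g := Multiplicative.ofAdd ![((rho g).u 0 : ℚ), ((rho g).u 1 : ℚ), ((rho g).u 2 : ℚ),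
    ((rho g).n : ℚ)]
  map_one' := by
    change (![((rho 1).u 0 : ℚ), ((rho 1).u 1 : ℚ), ((rho 1).u 2 : ℚ), ((rho 1).n : ℚ)] : V) = 0
    rw [MonoidHom.map_one]
    funext i
    fin_cases i <;> simp [QQ.one_u, QQ.one_n]
  map_mul' := by
    intro g h
    change (![((rho (g * h)).u 0 : ℚ), ((rho (g * h)).u 1 : ℚ), ((rho (g * h)).u 2 : ℚ),
      ((rho (g * h)).n : ℚ)] : V) = ![((rho g).u 0 : ℚ), ((rho g).u 1 : ℚ), ((rho g).u 2 : ℚ),
      ((rho g).n : ℚ)] + ![((rho h).u 0 : ℚ), ((rho h).u 1 : ℚ), ((rho h).u 2 : ℚ),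
      ((rho h).n : ℚ)]
    rw [MonoidHom.map_mul]
    have hn := rho_G g g.2
    funext i
    fin_cases i <;> simp [QQ.mul_u, QQ.mul_n, hn]

/-- the intersection, as a subgroup of `G` -/
def K : Subgroup G := H.subgroupOf G

theorem K_u (g : K) (i : ZMod 3) : (rho ((g : G) : F2)).u i = 0 := rho_H _ g.2 i

/-- the abelianisation of `K` -/
def fK : K →* Multiplicative V where
  toFun g := Multiplicative.ofAdd ![((rho ((g : G) : F2)).s 0 : ℚ), ((rho ((g : G) : F2)).s 1 : ℚ),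
    ((rho ((g : G) : F2)).s 2 : ℚ), ((rho ((g : G) : F2)).n : ℚ)]
  map_one' := by
    change (![((rho 1).s 0 : ℚ), ((rho 1).s 1 : ℚ), ((rho 1).s 2 : ℚ), ((rho 1).n : ℚ)] : V) = 0
    rw [MonoidHom.map_one]
    funext i
    fin_cases i <;> simp [QQ.one_s, QQ.one_n]
  map_mul' := by
    intro g h
    change (![((rho ((g : G) * (h : G) : F2)).s 0 : ℚ), ((rho ((g : G) * (h : G) : F2)).s 1 : ℚ),
      ((rho ((g : G) * (h : G) : F2)).s 2 : ℚ),
      ((rho ((g : G) * (h : G) : F2)).n : ℚ)] : V) = ![((rho ((g : G) : F2)).s 0 : ℚ),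
      ((rho ((g : G) : F2)).s 1 : ℚ), ((rho ((g : G) : F2)).s 2 : ℚ),
      ((rho ((g : G) : F2)).n : ℚ)] + ![((rho ((h : G) : F2)).s 0 : ℚ),
      ((rho ((h : G) : F2)).s 1 : ℚ), ((rho ((h : G) : F2)).s 2 : ℚ),
      ((rho ((h : G) : F2)).n : ℚ)]
    rw [MonoidHom.map_mul]
    have hn := rho_G g g.1.2
    have hu := K_u g
    funext i
    fin_cases i <;> simp [QQ.mul_s, QQ.mul_n, hn, hu]

/-- homomorphisms to a vector space and bases -/
theorem span_basis {r : ℕ} {M : Type} [Group M] (b : FreeGroupBasis (Fin r) M)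
    (f : M →* Multiplicative V) (hf : Submodule.span ℚ (Set.range fun m => (f m).toAdd) = ⊤) :
    Submodule.span ℚ (Set.range fun j => (f (b j)).toAdd) = ⊤ := by
  rw [eq_top_iff, ← hf, Submodule.span_le]
  rintro _ ⟨m, rfl⟩
  have hm : m ∈ Subgroup.closure (Set.range b) := by rw [closure_range]; trivial
  change (f m).toAdd ∈ Submodule.span ℚ (Set.range fun j => (f (b j)).toAdd)
  induction hm using Subgroup.closure_induction with
  | mem g hg =>
    obtain ⟨j, rfl⟩ := hg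
    exact Submodule.subset_span ⟨j, rfl⟩
  | one =>
    rw [MonoidHom.map_one]
    exact Submodule.zero_mem _
  | mul g h _ _ hg hh =>
    rw [MonoidHom.map_mul, toAdd_mul]
    exact Submodule.add_mem _ hg hh
  | inv g _ hg =>
    rw [MonoidHom.map_inv, toAdd_inv]
    exact Submodule.neg_mem _ hg

theorem span_top (v : Fin 4 → V) (h : ∀ i : Fin 4, ∃ c : ℚ, c ≠ 0 ∧ v i = c • Pi.single i 1)
    (S : Set V) (hS : ∀ i, v i ∈ S) : Submodule.span ℚ S = ⊤ := by
  rw [eq_top_iff]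
  intro w _
  have h1 : w = ∑ i, w i • (Pi.single i (1 : ℚ) : V) := by
    funext j
    simp [Finset.sum_apply, Pi.single_apply]
  rw [h1]
  refine Submodule.sum_mem _ fun i _ => Submodule.smul_mem _ _ ?_
  obtain ⟨c, hc, hv⟩ := h i
  have h2 : (Pi.single i (1 : ℚ) : V) = c⁻¹ • v i := by
    rw [hv, smul_smul, inv_mul_cancel₀ hc, one_smul]
  rw [h2]
  exact Submodule.smul_mem _ _ (Submodule.subset_span (hS i))

theorem tblG : ∀ j, ((rho (gG j)).u 0, (rho (gG j)).u 1, (rho (gG j)).u 2, (rho (gG j)).n) =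
    (![(0, 0, 0, 3), (1, 0, 0, 0), (0, 1, 0, 0), (0, 0, 1, 0)] : Fin 4 → ℤ × ℤ × ℤ × ℤ) j := by
  decide

theorem tblK : ∀ j, ((rho (gK j)).s 0, (rho (gK j)).s 1, (rho (gK j)).s 2, (rho (gK j)).n) =
    (![(0, 0, 0, 3), (2, 0, 0, 0), (0, 2, 0, 0), (0, 0, 2, 0)] : Fin 4 → ℤ × ℤ × ℤ × ℤ) j := by
  decide

theorem fG_span : Submodule.span ℚ (Set.range fun m => (fG m).toAdd) = ⊤ := by
  have key : ∀ j, (fG ⟨gG j, gG_mem j⟩).toAdd =
      (![Pi.single 3 3, Pi.single 0 1, Pi.single 1 1, Pi.single 2 1] : Fin 4 → V) j := by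
    intro j
    have h := tblG j
    change (![((rho (gG j)).u 0 : ℚ), ((rho (gG j)).u 1 : ℚ), ((rho (gG j)).u 2 : ℚ),
      ((rho (gG j)).n : ℚ)] : V) = _
    have e0 := congrArg Prod.fst h
    have e1 := congrArg (fun t => t.2.1) h
    have e2 := congrArg (fun t => t.2.2.1) h
    have e3 := congrArg (fun t => t.2.2.2) h
    dsimp only at e0 e1 e2 e3
    rw [e0, e1, e2, e3]
    fin_cases j <;> funext i <;> fin_cases i <;> simp
  refine span_top ![(fG ⟨gG 1, gG_mem 1⟩).toAdd, (fG ⟨gG 2, gG_mem 2⟩).toAdd,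
    (fG ⟨gG 3, gG_mem 3⟩).toAdd, (fG ⟨gG 0, gG_mem 0⟩).toAdd] ?_ _ ?_
  · intro i
    fin_cases i
    · refine ⟨1, one_ne_zero, ?_⟩
      change (fG ⟨gG 1, gG_mem 1⟩).toAdd = _
      rw [key]; simp
    · refine ⟨1, one_ne_zero, ?_⟩
      change (fG ⟨gG 2, gG_mem 2⟩).toAdd = _
      rw [key]; simp
    · refine ⟨1, one_ne_zero, ?_⟩
      change (fG ⟨gG 3, gG_mem 3⟩).toAdd = _
      rw [key]; simp
    · refine ⟨3, by norm_num, ?_⟩
      change (fG ⟨gG 0, gG_mem 0⟩).toAdd = _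
      rw [key]
      funext l
      fin_cases l <;> simp
  · intro i
    fin_cases i
    exacts [⟨_, rfl⟩, ⟨_, rfl⟩, ⟨_, rfl⟩, ⟨_, rfl⟩]

theorem fK_span : Submodule.span ℚ (Set.range fun m => (fK m).toAdd) = ⊤ := by
  have key : ∀ j, (fK ⟨⟨gK j, gK_mem_G j⟩, gK_mem_H j⟩).toAdd =
      (![Pi.single 3 3, Pi.single 0 2, Pi.single 1 2, Pi.single 2 2] : Fin 4 → V) j := by
    intro j
    have h := tblK j
    change (![((rho (gK j)).s 0 : ℚ), ((rho (gK j)).s 1 : ℚ), ((rho (gK j)).s 2 : ℚ),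
      ((rho (gK j)).n : ℚ)] : V) = _
    have e0 := congrArg Prod.fst h
    have e1 := congrArg (fun t => t.2.1) h
    have e2 := congrArg (fun t => t.2.2.1) h
    have e3 := congrArg (fun t => t.2.2.2) h
    dsimp only at e0 e1 e2 e3
    rw [e0, e1, e2, e3]
    fin_cases j <;> funext i <;> fin_cases i <;> simp
  refine span_top ![(fK ⟨⟨gK 1, gK_mem_G 1⟩, gK_mem_H 1⟩).toAdd,
    (fK ⟨⟨gK 2, gK_mem_G 2⟩, gK_mem_H 2⟩).toAdd,
    (fK ⟨⟨gK 3, gK_mem_G 3⟩, gK_mem_H 3⟩).toAdd,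
    (fK ⟨⟨gK 0, gK_mem_G 0⟩, gK_mem_H 0⟩).toAdd] ?_ _ ?_
  · intro i
    fin_cases i
    · refine ⟨2, two_ne_zero, ?_⟩
      change (fK ⟨⟨gK 1, gK_mem_G 1⟩, gK_mem_H 1⟩).toAdd = _
      rw [key]
      funext l
      fin_cases l <;> simp
    · refine ⟨2, two_ne_zero, ?_⟩
      change (fK ⟨⟨gK 2, gK_mem_G 2⟩, gK_mem_H 2⟩).toAdd = _
      rw [key]
      funext l
      fin_cases l <;> simp
    · refine ⟨2, two_ne_zero, ?_⟩
      change (fK ⟨⟨gK 3, gK_mem_G 3⟩, gK_mem_H 3⟩).toAdd = _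
      rw [key]
      funext l
      fin_cases l <;> simp
    · refine ⟨3, by norm_num, ?_⟩
      change (fK ⟨⟨gK 0, gK_mem_G 0⟩, gK_mem_H 0⟩).toAdd = _
      rw [key]
      funext l
      fin_cases l <;> simp
  · intro i
    fin_cases i
    exacts [⟨_, rfl⟩, ⟨_, rfl⟩, ⟨_, rfl⟩, ⟨_, rfl⟩]

theorem G_gen : Subgroup.closure (Set.range fun j => (⟨gG j, gG_mem j⟩ : G)) = ⊤ := by
  let φ : FreeGroup (Fin 4) →* G := (FreeGroup.lift gG).rangeRestrict
  have h1 : (Set.range fun j => (⟨gG j, gG_mem j⟩ : G)) = φ '' (Set.range FreeGroup.of) := by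
    rw [← Set.range_comp]
    congr 1
    funext j
    apply Subtype.ext
    exact FreeGroup.lift_apply_of.symm
  rw [h1, ← MonoidHom.map_closure, FreeGroup.closure_range_of, ← MonoidHom.range_eq_map,
    MonoidHom.range_eq_top]
  exact MonoidHom.rangeRestrict_surjective _

theorem fG_congr {g h : G} (e : rho g = rho h) : fG g = fG h := by
  change Multiplicative.ofAdd _ = Multiplicative.ofAdd _
  rw [e]

theorem fK_congr {g h : K} (e : rho ((g : G) : F2) = rho ((h : G) : F2)) : fK g = fK h := by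
  change Multiplicative.ofAdd _ = Multiplicative.ofAdd _
  rw [e]

theorem pair01 {v : Fin 4 → V} (h : LinearIndependent ℚ v) (s t : ℚ)
    (hst : s • v 0 + t • v 1 = 0) : s = 0 ∧ t = 0 := by
  have h1 := Fintype.linearIndependent_iff.1 h ![s, t, 0, 0] (by
    rw [Fin.sum_univ_four]
    simpa using hst)
  exact ⟨h1 0, h1 1⟩

theorem not_echelon : ¬ IsEchelon K := by
  rintro ⟨n, X, r, b, i, hi, hb⟩
  have hn : n ≤ 4 := card_le_of_gen X _ G_gen
  have hrn : r ≤ n := by
    have := Fintype.card_le_of_injective i hi.injective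
    simpa using this
  have hspan := span_basis b fK fK_span
  have hr : 4 ≤ r := by
    have h1 := finrank_range_le_card (R := ℚ) (fun j => (fK (b j)).toAdd)
    rw [Set.finrank, hspan, finrank_top] at h1
    simpa using h1
  obtain rfl : r = 4 := by omega
  obtain rfl : n = 4 := by omega
  have hβ : LinearIndependent ℚ (fun j => (fK (b j)).toAdd) :=
    linearIndependent_of_top_le_span_of_card_eq_finrank (le_of_eq hspan.symm) (by simp)
  have hα : LinearIndependent ℚ (fun j => (fG (X j)).toAdd) :=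
    linearIndependent_of_top_le_span_of_card_eq_finrank
      (le_of_eq (span_basis X fG fG_span).symm) (by simp)
  have h01 : i 0 < i 1 := hi (by decide)
  have h12 : i 1 < i 2 := hi (by decide)
  have h23 : i 2 < i 3 := hi (by decide)
  have hi0 : (i 0 : ℕ) = 0 := by omega
  have hi1 : (i 1 : ℕ) = 1 := by omega
  obtain ⟨hb1, hb2⟩ := hb 0
  obtain ⟨hb3, -⟩ := hb 1
  rw [hi0] at hb1 hb2
  rw [hi1] at hb3
  obtain ⟨m, hm⟩ := level_one X (by decide) hb1
  have hm' : X 0 ^ m = (b 0 : G) := hm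
  have hm0 : m ≠ 0 := by
    rintro rfl
    apply hb2
    rw [← hm', zpow_zero]
    exact one_mem _
  -- the first basis element has trivial abelian part
  have hu : ∀ l : ZMod 3, (rho (X 0)).u l = 0 := by
    have h1 : (fG ((b 0 : K) : G)).toAdd = m • (fG (X 0)).toAdd := by
      rw [← hm', MonoidHom.map_zpow, toAdd_zpow]
    have h2 : ∀ l : Fin 4, (l : ℕ) < 3 → (fG (X 0)).toAdd l = 0 := by
      intro l hl
      have h3 := congrFun h1 l
      have h4 : (fG ((b 0 : K) : G)).toAdd l = 0 := by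
        have h5 := K_u (b 0)
        fin_cases l
        · change ((rho (((b 0 : K) : G) : F2)).u 0 : ℚ) = 0
          rw [h5]; simp
        · change ((rho (((b 0 : K) : G) : F2)).u 1 : ℚ) = 0
          rw [h5]; simp
        · change ((rho (((b 0 : K) : G) : F2)).u 2 : ℚ) = 0
          rw [h5]; simp
        · simp at hl
      rw [h4, Pi.smul_apply] at h3
      rcases smul_eq_zero.1 h3.symm with h6 | h6
      · exact absurd h6 hm0
      · exact h6
    intro l
    fin_cases l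
    · have h3 : ((rho (X 0)).u 0 : ℚ) = 0 := h2 0 (by decide)
      exact_mod_cast h3
    · have h3 : ((rho (X 0)).u 1 : ℚ) = 0 := h2 1 (by decide)
      exact_mod_cast h3
    · have h3 : ((rho (X 0)).u 2 : ℚ) = 0 := h2 2 (by decide)
      exact_mod_cast h3
  have hcomm : Commute (rho (X 0)) (rho (X 1)) := by
    have n0 := rho_G _ (X 0).2
    have n1 := rho_G _ (X 1).2
    change rho (X 0) * rho (X 1) = rho (X 1) * rho (X 0)
    ext l
    · rw [QQ.mul_u, QQ.mul_u, hu, hu, n0, sub_zero]; ring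
    · rw [QQ.mul_s, QQ.mul_s, hu, hu, n0, n1, sub_zero]; ring
    · rw [QQ.mul_n, QQ.mul_n]; ring
  have hlev : ∀ h ∈ level X 2, ∃ p q : ℤ, rho h = rho (X 0) ^ p * rho (X 1) ^ q := by
    intro h hh
    unfold level at hh
    induction hh using Subgroup.closure_induction with
    | mem g hg =>
      obtain ⟨j, hj, rfl⟩ := hg
      have hj' : j = 0 ∨ j = 1 := by
        rcases Nat.lt_or_ge (j : ℕ) 1 with h | h
        · left; ext; simp only [Fin.val_zero]; omega
        · right; ext; simp only [Fin.val_one]; omega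
      rcases hj' with rfl | rfl
      · exact ⟨1, 0, by simp⟩
      · exact ⟨0, 1, by simp⟩
    | one => exact ⟨0, 0, by simp⟩
    | mul g h _ _ hg hh =>
      obtain ⟨p, q, e1⟩ := hg
      obtain ⟨p', q', e2⟩ := hh
      refine ⟨p + p', q + q', ?_⟩
      have h3 : Commute (rho (X 1) ^ q) (rho (X 0) ^ p') := (hcomm.symm.zpow_zpow q p')
      rw [Subgroup.coe_mul, MonoidHom.map_mul, e1, e2, zpow_add, zpow_add]
      have h4 : rho (X 1) ^ q * rho (X 0) ^ p' = rho (X 0) ^ p' * rho (X 1) ^ q := h3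
      calc rho (X 0) ^ p * rho (X 1) ^ q * (rho (X 0) ^ p' * rho (X 1) ^ q') =
          rho (X 0) ^ p * (rho (X 1) ^ q * rho (X 0) ^ p') * rho (X 1) ^ q' := by group
        _ = rho (X 0) ^ p * rho (X 0) ^ p' * (rho (X 1) ^ q * rho (X 1) ^ q') := by
          rw [h4]; group
    | inv g _ hg =>
      obtain ⟨p, q, e1⟩ := hg
      refine ⟨-p, -q, ?_⟩
      have h3 : Commute (rho (X 1) ^ (-q)) (rho (X 0) ^ (-p)) := (hcomm.symm.zpow_zpow _ _)
      rw [Subgroup.coe_inv, MonoidHom.map_inv, e1, mul_inv_rev, ← zpow_neg, ← zpow_neg]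
      exact h3
  obtain ⟨p, q, hpq⟩ := hlev _ hb3
  -- the exponent `q` is zero
  have hq : q = 0 := by
    by_contra hq
    have h1 : fG ((b 1 : K) : G) = fG (X 0 ^ p * X 1 ^ q) := by
      apply fG_congr
      rw [hpq, Subgroup.coe_mul, MonoidHom.map_mul, Subgroup.coe_zpow, Subgroup.coe_zpow,
        MonoidHom.map_zpow, MonoidHom.map_zpow]
    have h2 : (fG ((b 1 : K) : G)).toAdd = p • (fG (X 0)).toAdd + q • (fG (X 1)).toAdd := by
      rw [h1, MonoidHom.map_mul, MonoidHom.map_zpow, MonoidHom.map_zpow, toAdd_mul, toAdd_zpow,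
        toAdd_zpow]
    have h0 : ∀ l : Fin 4, (l : ℕ) < 3 → (fG (X 0)).toAdd l = 0 := by
      intro l hl
      fin_cases l
      · change ((rho (X 0)).u 0 : ℚ) = 0
        rw [hu]; simp
      · change ((rho (X 0)).u 1 : ℚ) = 0
        rw [hu]; simp
      · change ((rho (X 0)).u 2 : ℚ) = 0
        rw [hu]; simp
      · simp at hl
    have h3 : ∀ l : Fin 4, (l : ℕ) < 3 → (fG (X 1)).toAdd l = 0 := by
      intro l hl
      have h4 := congrFun h2 l
      have h5 : (fG ((b 1 : K) : G)).toAdd l = 0 := by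
        have h5 := K_u (b 1)
        fin_cases l
        · change ((rho (((b 1 : K) : G) : F2)).u 0 : ℚ) = 0
          rw [h5]; simp
        · change ((rho (((b 1 : K) : G) : F2)).u 1 : ℚ) = 0
          rw [h5]; simp
        · change ((rho (((b 1 : K) : G) : F2)).u 2 : ℚ) = 0
          rw [h5]; simp
        · simp at hl
      rw [h5, Pi.add_apply, Pi.smul_apply, Pi.smul_apply, h0 l hl, smul_zero, zero_add] at h4
      rcases smul_eq_zero.1 h4.symm with h6 | h6
      · exact absurd h6 hq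
      · exact h6
    have h4 := pair01 hα
      ((fG (X 1)).toAdd 3) (-(fG (X 0)).toAdd 3) (by
        funext l
        rw [Pi.add_apply, Pi.smul_apply, Pi.smul_apply, Pi.zero_apply]
        rcases Nat.lt_or_ge (l : ℕ) 3 with h | h
        · rw [h0 l h, h3 l h]; simp
        · have : l = 3 := by ext; have := l.2; change (l : ℕ) = 3; omega
          rw [this]
          simp only [smul_eq_mul]
          ring)
    have h5 : (fG (X 0)).toAdd = 0 := by
      funext l
      rcases Nat.lt_or_ge (l : ℕ) 3 with h | h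
      · exact h0 l h
      · have : l = 3 := by ext; have := l.2; change (l : ℕ) = 3; omega
        rw [this]
        exact neg_eq_zero.1 h4.2
    exact hα.ne_zero 0 h5
  -- conclusion
  have h1 : fK ((b 1) ^ m) = fK ((b 0) ^ p) := by
    apply fK_congr
    have e0 : rho ((b 0 : K) : G) = rho (X 0) ^ m := by
      rw [← hm', Subgroup.coe_zpow, MonoidHom.map_zpow]
    rw [hq, zpow_zero, mul_one] at hpq
    rw [Subgroup.coe_zpow, Subgroup.coe_zpow, Subgroup.coe_zpow, Subgroup.coe_zpow,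
      MonoidHom.map_zpow, MonoidHom.map_zpow, hpq, e0, ← zpow_mul, ← zpow_mul, mul_comm]
  have h2 : m • (fK (b 1)).toAdd = p • (fK (b 0)).toAdd := by
    rw [← toAdd_zpow, ← toAdd_zpow, ← MonoidHom.map_zpow, ← MonoidHom.map_zpow, h1]
  have h3 := pair01 hβ
    ((p : ℚ)) (-(m : ℚ)) (by
      rw [neg_smul, Int.cast_smul_eq_zsmul, Int.cast_smul_eq_zsmul, h2, add_neg_cancel])
  apply hm0
  have h4 := neg_eq_zero.1 h3.2
  exact_mod_cast h4

/-- There are an echelon subgroup `H` of the free group of rank two and a finitely generated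
subgroup `G` such that `H ∩ G` is not an echelon subgroup of `G`. -/
theorem result : ∃ H G : Subgroup (FreeGroup (Fin 2)), IsEchelon H ∧ G.FG ∧
    ¬ IsEchelon (H.subgroupOf G) := by
  refine ⟨H, G, echelonH, ?_, not_echelon⟩
  rw [Subgroup.fg_iff]
  refine ⟨Set.range gG, ?_, Set.finite_range _⟩
  exact (FreeGroup.range_lift_eq_closure).symm

end Pool.Agent.Results.MP_3ccc78_al.IntersectionNotEchelonInG
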